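import Mathlib
import Pool.Agent.Run7.h128.BL.Eqv

/-!
# The Bombieri-Lang-Vojta equivalence for points which are sums of almost units

`k` is a number field, embedded in the complex numbers, `X` is a closed subscheme of projective
`n`-space over `k`, given by forms `G`, and `V = X ∖ {T = 0}` for a form `T` of degree `δ`. For
`δ = 0` this gives all projective schemes, and for `δ = 1` all affine schemes. `V'` is any closed
subset of `V`, given by `G'`.

For a number field `L` containing `k`, a finite set `S` of places and vectors `y_1, …, y_r` over `L`
with sum `x` let `N_S(y)` be the sum over the places `w` outside `S` and the nonzero coordinates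
`y_{ja}` of `log (max |y|_w / |y_{ja}|_w)`, and let `D_S(T(x), y)` be the sum over the places outside
`S` of `|log |T(x)|_w - δ log max |y|_w|`. Both vanish if all nonzero coordinates `y_{ja}` and `T(x)`
are `S`-units; in general nothing is supposed about `S`-integrality.

The following conditions are equivalent:

* every nonconstant entire curve of exponential type in `V` lies in `V'`;
* every nonconstant morphism from the multiplicative group to `V` lies in `V'`;
* for all `L`, `S`, `r` there is `C` with `h(x) ≤ C (1 + N_S(y) + D_S(T(x), y))` for all points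
  `x = y_1 + … + y_r` of `V(L)` outside `V'`;
* for all `L`, `S`, `r` there is `ε > 0` such that only finitely many points `x` of `V(L)` outside
  `V'` are sums `x = y_1 + … + y_r` with `N_S(y) + D_S(T(x), y) ≤ ε h(x)`.

Both conditions of the Bombieri-Lang-Vojta conjecture, (i) on entire curves and (ii) on integral
points, imply these.
-/

set_option autoImplicit false

namespace Pool.Agent.Results.MP_e97a4d_nt.AlmostUnitEquivalence

open MvPolynomial Run7.h128.BL

/-- **The Bombieri-Lang-Vojta equivalence for sums of almost units**, for all projective and affine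
schemes `V` and all closed `V'`. -/
theorem result {k : Type} [Field k] [NumberField k] (σ : k →+* ℂ) {n m : ℕ} {κ : Type}
    (e : Fin m → ℕ) (G : Fin m → MvPolynomial (Fin (n + 1)) k)
    (hG : ∀ i, (G i).IsHomogeneous (e i)) (δ : ℕ) (T : MvPolynomial (Fin (n + 1)) k)
    (hT : T.IsHomogeneous δ) (G' : κ → MvPolynomial (Fin (n + 1)) k) :
    List.TFAE [ExpIn σ G T G', GmIn σ G T G', SumsBounded G T δ G', SumsFinite G T δ G'] ∧
      (EntireIn σ G T G' → SumsBounded G T δ G') ∧
      (IntegralFinite G T δ G' → SumsBounded G T δ G') := by
  have h12 : ExpIn σ G T G' → GmIn σ G T G' := gm_of_exp σ G T G'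
  have h21 : GmIn σ G T G' → ExpIn σ G T G' := exp_of_gm σ e G hG T δ hT G'
  have h23 : GmIn σ G T G' → SumsBounded G T δ G' := bounded_of_gm σ e G hG T δ hT G'
  have h34 : SumsBounded G T δ G' → SumsFinite G T δ G' := finite_of_bounded G T δ G'
  have h42 : SumsFinite G T δ G' → GmIn σ G T G' := gm_of_finite σ G T δ G'
  refine ⟨?_, fun h => h23 (h12 fun f hf => h f hf.1), fun h =>
    h23 (gm_of_integral σ G T δ hT G' h)⟩
  tfae_have 1 → 2 := h12
  tfae_have 2 → 1 := h21
  tfae_have 2 → 3 := h23
  tfae_have 3 → 4 := h34
  tfae_have 4 → 2 := h42
  tfae_finish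

end Pool.Agent.Results.MP_e97a4d_nt.AlmostUnitEquivalence
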