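import Pool.Agent.Run7.h177.TA.Main
import Pool.Agent.Run7.h177.TA.GenMain
import Pool.Agent.Run7.h418.E.Thm

/-!
# Finiteness of rational points and entire curves, for varieties with symmetric differentials

`X = {F = 0}` is a projective variety (or scheme) over a number field `k`, of any dimension, possibly
singular or reducible, `σ : k → ℂ` an embedding, and `Z = {Q = 0}` a closed subset over `k`. The
condition (ii) of the problem for `V = X`, `V' = Z` says that `X(L) ∖ Z(L)` is finite for all number
fields `L ⊇ k`: as `X` is projective, the integral points over the rings of `S`-integers of `L` are,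
for large `S`, the points over `L` (`Points F L`, `Pool/Agent/Q103/AR/Pts.lean`, is `X(L)`). The
condition (i) says that all nonconstant entire curves in `X_σ` lie in `Z_σ`.

Suppose that (ii) holds.

1. Let finitely many symmetric differentials of one degree `m > 0` generate `Sᵐ Ω` on `X_σ`
   (`SymForm`, `Generates`, `Pool/Agent/Run7/h418`). For example `X` is smooth and `Sᵐ Ω` is generated
   by global sections, or `X` is a closed subvariety of such a variety. Then
   * (i) holds: all nonconstant entire curves in `X_σ` lie in `Z_σ`;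
   * all closed subvarieties of `X_σ` of positive dimension not contained in `Z_σ` are of general type
     (`SubVar`, `GeneralType`, `Pool/Agent/W602/GT`), and all images of nonconstant holomorphic maps
     from complex tori to `X_σ` lie in `Z_σ`.
2. Let `X_σ` have a finite immersive family of regular symmetric differentials of positive degrees
   (`Immersive`, `Pool/Agent/Run7/h418/Defs.lean`): for all points `x` and nonzero Zariski
   tangent vectors `v`, `w` at `x` the derivative of one of them at `v` in the direction `w` is not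
   zero. Then
   * all nonconstant entire curves of bounded derivative in `X_σ` lie in `Z_σ`;
   * the closure of the image of every nonconstant entire curve in `X_σ` contains the image of a
     nonconstant entire curve in `Z_σ`, of bounded derivative;
   * so (i) holds if every entire curve in `X_σ ∩ Z_σ` is constant: then every entire curve in `X_σ` is
     constant.

The proof. The Zariski closure of an entire curve in `X_σ` is not of general type, and a closed
subvariety which is not of general type is covered by immersed complex tori; an entire curve of bounded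
derivative lies in an immersed complex torus (theorems of helper418, `Pool/Agent/Run7/h418`; the theorem
on all entire curves, `Pool/Agent/Run7/h418/E`, has pieces by helper177, helper711, helper83, helper847,
helper712, helper283, helper576 and helper941). An immersed torus in `X_σ` which is not contained in
`Z_σ` gives infinitely many points of `X`, outside `Z`, over a number field
(`Pool/Agent/Run7/h177/TA`).
-/

set_option autoImplicit false

open scoped LinearAlgebra.Projectivization

namespace Pool.Agent.Results.MP_e97a4d_nt.DifferentialsAndEntireCurves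

open Pool.Agent.W602.GT Pool.Agent.N155 Run7.h418 Pool.Agent.TH182.TC
open Pool.Agent.N154.GG (projDist)
open Pool.Agent.Q103.AR (Points)

/-- **Finiteness of rational points outside of `Z` and entire curves.** -/
theorem result {k : Type} [Field k] [NumberField k] (σ : k →+* ℂ) {n : ℕ} {ι κ τ : Type} [Fintype τ]
    (F : ι → MvPolynomial (Fin (n + 1)) k) (hF : ∀ i, IsForm (F i))
    (Q : κ → MvPolynomial (Fin (n + 1)) k) (hQ : ∀ j, IsForm (Q j))
    (hfin : ∀ (L : Type) [Field L] [NumberField L] [Algebra k L],
      (Points F L \ Points Q L).Finite) :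
    (∀ (m : ℕ) (s : τ → (Fin (n + 1) → ℂ) → (Fin (n + 1) → ℂ) → ℂ), 0 < m →
      (∀ j, SymForm (fun i => MvPolynomial.map σ (F i)) m (s j)) →
      Generates (fun i => MvPolynomial.map σ (F i)) m s →
        (∀ f : ℂ → ℙ ℂ (Fin (n + 1) → ℂ), HolMap f →
          (∀ z, (f z).rep ∈ Cone (fun i => MvPolynomial.map σ (F i))) → (∃ z w, f z ≠ f w) →
            ∀ j z, val (f z).rep (MvPolynomial.map σ (Q j)) = 0) ∧
        (∀ (K : Type) [Field K] [Algebra ℂ K] (w : ℕ) (y : Fin (n + 1) → K), 1 ≤ w →
          SubVar (fun i => MvPolynomial.map σ (F i)) K w y →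
            (∃ j, val y (MvPolynomial.map σ (Q j)) ≠ 0) → GeneralType ℂ K w) ∧
        (∀ (q : ℕ) (b : Module.Basis (Fin (2 * q)) ℝ (Fin q → ℂ)) (g : (Fin q → ℂ) → PS n),
          Holo g → (∀ t, OnX (fun i => MvPolynomial.map σ (F i)) (g t)) →
            (∀ t i, g (t + b i) = g t) → (∃ t t', g t ≠ g t') →
              ∀ j t, MvPolynomial.eval (g t).rep (MvPolynomial.map σ (Q j)) = 0)) ∧
    (∀ (m : τ → ℕ) (s : τ → (Fin (n + 1) → ℂ) → (Fin (n + 1) → ℂ) → ℂ), (∀ j, 0 < m j) →
      (∀ j, SymForm (fun i => MvPolynomial.map σ (F i)) (m j) (s j)) →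
      Immersive (fun i => MvPolynomial.map σ (F i)) s →
        (∀ f : ℂ → ℙ ℂ (Fin (n + 1) → ℂ), HolMap f →
          (∀ z, (f z).rep ∈ Cone (fun i => MvPolynomial.map σ (F i))) → BoundedDer f →
            (∃ z w, f z ≠ f w) → ∀ j z, val (f z).rep (MvPolynomial.map σ (Q j)) = 0) ∧
        (∀ f : ℂ → ℙ ℂ (Fin (n + 1) → ℂ), HolMap f →
          (∀ z, (f z).rep ∈ Cone (fun i => MvPolynomial.map σ (F i))) → (∃ z w, f z ≠ f w) →
            ∃ h : ℂ → ℙ ℂ (Fin (n + 1) → ℂ), HolMap h ∧ BoundedDer h ∧
              (∀ z, (h z).rep ∈ Cone (fun i => MvPolynomial.map σ (F i))) ∧ (∃ z w, h z ≠ h w) ∧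
              (∀ j z, val (h z).rep (MvPolynomial.map σ (Q j)) = 0) ∧
              ∀ z, ∀ ε > 0, ∃ w, projDist (h z) (f w) < ε) ∧
        (BrodyHyperbolic (Sum.elim (fun i => MvPolynomial.map σ (F i))
            (fun j => MvPolynomial.map σ (Q j))) →
          BrodyHyperbolic (fun i => MvPolynomial.map σ (F i)))) := by
  have hFσ : ∀ i, IsForm (MvPolynomial.map σ (F i)) := fun i => Run7.h177.TA.isForm_map σ (hF i)
  have hfin' : ∀ (L : Type) [Field L] [Algebra k L] [FiniteDimensional k L],
      (Points F L \ Points Q L).Finite := by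
    intro L _ _ _
    have : NumberField L := NumberField.of_module_finite k L
    exact hfin L
  refine ⟨fun m s hm hs hgen => ?_, fun m s hm hs him => ⟨fun f hf hfF hb hne =>
    Run7.h177.TA.bdd_zero σ F hF hm hs him Q hQ hfin hf hfF hb hne, fun f hf hfF hne =>
    Run7.h177.TA.main_immersive σ F hF hm hs him Q hQ hfin hf hfF hne, fun hZ f hf hfF => ?_⟩⟩
  · have htor : ∀ (q : ℕ) (b : Module.Basis (Fin (2 * q)) ℝ (Fin q → ℂ))
        (g : (Fin q → ℂ) → PS n), Holo g → (∀ t, OnX (fun i => MvPolynomial.map σ (F i)) (g t)) →
        (∀ t i, g (t + b i) = g t) → (∃ t t', g t ≠ g t') →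
          ∀ j t, MvPolynomial.eval (g t).rep (MvPolynomial.map σ (Q j)) = 0 := by
      intro q b g hg hX hper hne j
      refine R.van_torus (F := fun i => MvPolynomial.map σ (F i)) (fun p hp hb hpF hne' z => ?_) hg
        hX hper hne
      have h := Run7.h177.TA.bdd_zero σ F hF (fun _ => hm) hs
        (R.immersive_of_generates hm hs hgen) Q hQ hfin hp hpF hb hne' j z
      rwa [val_ev] at h
    refine ⟨fun f hf hfF hne j z => ?_, fun K _ _ w y hw hy hyZ =>
      Run7.h177.TA.general_off σ F hF hm hs hgen Q hQ hfin' K w y hw hy hyZ, htor⟩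
    rw [val_ev]
    refine E.van_of_torus E.hyps hFσ hm hs hgen (Run7.h177.TA.isForm_map σ (hQ j)) hf hfF hne
      (fun q b g hg hH hper hgne t => htor q b g hg (fun t i => ?_) hper hgne j t) z
    refine hH _ (hFσ i) (fun z => ?_) t
    rw [← val_ev]
    exact (hfF z).2 i
  · by_contra hcon
    push Not at hcon
    obtain ⟨h, h1, -, h3, ⟨z, w, h4⟩, h5, -⟩ :=
      Run7.h177.TA.main_immersive σ F hF hm hs him Q hQ hfin hf hfF hcon
    exact h4 (hZ h h1 (fun z => ⟨(h3 z).1, by
      rintro (i | j)
      · exact (h3 z).2 i
      · exact h5 j z⟩) z w)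

end Pool.Agent.Results.MP_e97a4d_nt.DifferentialsAndEntireCurves
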