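import Pool.Agent.Run7.h34.OK.Pow

/-!
# Finiteness of integral points and degeneracy of orbifold entire curves

`V` is a closed subvariety of projective `n`-space over a number field `K`, the zero set of finitely
many forms `F i` over `𝓞 K` of degree at most `d`, and `V'` is the closed subset of `V` given by
arbitrary forms `G l`. There are numbers `B` and `m₀`, which depend only on `n` and `d`, such that
for all `K`, `σ : K → ℂ`, `V` and `V'`:

1. The following are equivalent:
* (arithmetic) for all number fields `L ⊇ K`, all systems of `n + 1` hyperplanes over `L` without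
  common point and all finitely generated groups `Γ ⊆ Lˣ` (for instance the `S`-units), only finitely
  many points of `V(L)` outside of `V'` are integral, that is, have homogeneous coordinates `x` for
  which the `n + 1` linear forms take values in `Γ ∪ {0}`;
* every nonconstant monomial curve `t ↦ S (x_0 t ^ k_0, ..., x_n t ^ k_n)` in `V(ℂ)` with exponents
  at most `B` lies in `V'` (the same without bound for the exponents);
* (analytic, finite or infinite multiplicities `m_j ≥ m₀`) for every system of `n + 1` hyperplanes
  over `ℂ` without common point, every nonconstant entire curve in `V(ℂ)` that meets the hyperplane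
  `H_j` only with multiplicities `≥ m_j` (or lies in it) lies in `V'`, `j = 0, ..., n`;
* the same for one vector `(m_j)` of multiplicities, `0 ≤ m_j ≤ ∞` (for `m = 0` this is condition (i)
  of the conjecture).
2. The same for the fixed system of the coordinate hyperplanes.
3. Let `m ≥ m₀` and let `V_m` be the variety given by the forms `F i (x_0 ^ m, ..., x_n ^ m)`, and
  `V'` as above. Condition (i) of the conjecture for `V_m` (every nonconstant entire curve in
  `V_m(ℂ)` lies in `V'`) is equivalent to the finiteness of the points of `V_m` outside of `V'` with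
  coordinates in `Γ ∪ {0}`, and to the degeneracy of the monomial curves with exponents at most `B`.
  So condition (ii) for `V_m` implies condition (i) for `V_m`.
-/

set_option autoImplicit false

namespace Pool.Agent.Results.MP_e97a4d_nt.OrbifoldEquivalence

open MvPolynomial Pool.Agent.Q72.OK Run7.h34.OK
open scoped NumberField

theorem result (n d : ℕ) : ∃ B m₀ : ℕ, ∀ (K : Type) [Field K] [NumberField K] (σ : K →+* ℂ)
    (ι κ : Type) [Finite ι] (F : ι → MvPolynomial (Fin (n + 1)) (𝓞 K))
    (G : κ → MvPolynomial (Fin (n + 1)) (𝓞 K)), (∀ i, ∃ e ≤ d, (F i).IsHomogeneous e) →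
    (∀ l, ∃ e, (G l).IsHomogeneous e) →
    List.TFAE [IntegralFinite F G, MonCurvesIn σ F G B, ∀ B', MonCurvesIn σ F G B',
      ∀ m : Fin (n + 1) → ℕ∞, (∀ j, (m₀ : ℕ∞) ≤ m j) → ∀ ℓ, OrbCurvesIn σ F G m ℓ,
      ∃ m, ∀ ℓ, OrbCurvesIn σ F G m ℓ] ∧
    List.TFAE [CoordFinite F G, MonCurvesInAt σ F G B (LinearEquiv.refl ℂ _),
      ∀ B', MonCurvesInAt σ F G B' (LinearEquiv.refl ℂ _),
      ∀ m : Fin (n + 1) → ℕ∞, (∀ j, (m₀ : ℕ∞) ≤ m j) →
        OrbCurvesIn σ F G m (LinearEquiv.refl ℂ _),
      ∃ m, OrbCurvesIn σ F G m (LinearEquiv.refl ℂ _)] ∧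
    ∀ m : ℕ, m₀ ≤ m →
      List.TFAE [EntireCurvesIn σ (powForms m F) G, CoordFinite (powForms m F) G,
        MonCurvesInAt σ (powForms m F) G B (LinearEquiv.refl ℂ _),
        ∀ B', MonCurvesInAt σ (powForms m F) G B' (LinearEquiv.refl ℂ _)] ∧
      (RationalFinite (powForms m F) G → EntireCurvesIn σ (powForms m F) G) :=
  ⟨BB n d, M0 n d, fun _ _ _ σ _ _ _ F G hF hG =>
    ⟨tfae_all σ F G hF hG, tfae_coord σ F G hF hG, fun _ hm => tfae_pow σ F G hF hG hm⟩⟩

end Pool.Agent.Results.MP_e97a4d_nt.OrbifoldEquivalence
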