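import Mathlib
import Pool.Agent.Run7.h983.B9

/-!
# The Bombieri–Lang–Vojta equivalence when the points are separated by units or lie on curves

`V` is the closed subscheme of affine `N`-space over the ring of integers of the number field `K`
given by the polynomials `F`, and `V'` is its closed subscheme given by the polynomials `G`. The
functions `U i` on `V` are invertible, with inverses `W i`. Every complex point of `V` outside `V'`
is supposed to be the only such point with its values of the functions `U i`, or to lie on a
nonconstant curve `ℂˣ → V` given by Laurent polynomials.

For every `V'` this holds if `V` is a closed subscheme of the product of a torus and an affine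
space, with equations of degree at most one in the coordinates of the affine space, see
`Pool.Agent.Run7.h983.pointOrCurve_of_linear` and `Pool.Agent.Run7.h983.equiv_linear`.
-/

set_option autoImplicit false

namespace Pool.Agent.Results.MP_e97a4d_nt.UnitsSeparatePoints

open MvPolynomial
open Pool.Agent.H159R3.Exp Pool.Agent.W235.RM Pool.Agent.Run7.h983
open scoped NumberField

/-- **The equivalence of the conditions on entire curves and on integral points**, and of the
condition on the curves which are given by Laurent polynomials. -/
theorem result {K : Type} [Field K] [NumberField K] (σ : K →+* ℂ) {ι κ : Type} {N n : ℕ}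
    (F : ι → MvPolynomial (Fin N) (𝓞 K)) (G : κ → MvPolynomial (Fin N) (𝓞 K))
    (U W : Fin n → MvPolynomial (Fin N) (𝓞 K))
    (hUW : ∀ i, U i * W i - 1 ∈ Ideal.span (Set.range F)) (h : PointOrCurve σ F G U) :
    (EntireCurvesIn σ F G ↔ FinitelyManyIntegral F G) ∧
      (EntireCurvesIn σ F G ↔ GmCurvesIn σ F G) :=
  equiv_main σ F G U W hUW h

end Pool.Agent.Results.MP_e97a4d_nt.UnitsSeparatePoints
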